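import Mathlib

set_option linter.style.haveILetI false

namespace Pool.Agent.Helper11.Zt

/-- The degree of a ring homomorphism. -/
private noncomputable def z1dg {A B : Type*} [CommRing A] [CommRing B] (f : A →+* B) : ℕ :=
  @Module.finrank A B _ _ f.toAlgebra.toModule

private lemma z1dg_comp {A B C : Type*} [Field A] [Field B] [Field C] (f : A →+* B)
    (g : B →+* C) : z1dg (g.comp f) = z1dg f * z1dg g := by
  letI := f.toAlgebra
  letI := g.toAlgebra
  letI := (g.comp f).toAlgebra
  haveI : IsScalarTower A B C := IsScalarTower.of_algebraMap_eq (fun x => rfl)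
  exact (Module.finrank_mul_finrank A B C).symm

private lemma z1dg_frac {A K B L : Type*} [CommRing A] [IsDomain A] [Field K] [CommRing B]
    [IsDomain B] [Field L] [Algebra A K] [Algebra B L] [IsFractionRing A K] [IsFractionRing B L]
    (f : A →+* B) (g : K →+* L) (h : ∀ x, g (algebraMap A K x) = algebraMap B L (f x)) :
    z1dg g = z1dg f := by
  letI := f.toAlgebra
  letI := g.toAlgebra
  letI : Algebra A L := ((algebraMap B L).comp f).toAlgebra
  haveI : IsScalarTower A K L := IsScalarTower.of_algebraMap_eq (fun x => (h x).symm)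
  haveI : IsScalarTower A B L := IsScalarTower.of_algebraMap_eq (fun x => rfl)
  exact IsFractionRing.finrank_eq A K B L

private lemma z1dg_basis {A B ι : Type*} [CommRing A] [Nontrivial A] [CommRing B] [Fintype ι]
    (f : A →+* B) (v : ι → B) (hli : ∀ c : ι → A, ∑ i, f (c i) * v i = 0 → ∀ i, c i = 0)
    (hsp : ∀ b, ∃ c : ι → A, b = ∑ i, f (c i) * v i) :
    z1dg f = Fintype.card ι := by
  letI := f.toAlgebra
  have hsm : ∀ (a : A) (b : B), a • b = f a * b := fun a b => rfl
  let b : Module.Basis ι A B := Module.Basis.mk (v := v)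
    (by
      rw [Fintype.linearIndependent_iff]
      intro c hc
      exact hli c (by simpa [hsm] using hc))
    (by
      intro y _
      obtain ⟨c, hc⟩ := hsp y
      rw [hc]
      refine Submodule.sum_mem _ fun i _ => ?_
      have := Submodule.smul_mem (Submodule.span A (Set.range v)) (c i)
        (Submodule.subset_span ⟨i, rfl⟩)
      simpa [hsm] using this)
  exact Module.finrank_eq_card_basis b

open MvPolynomial in
private lemma z1dg_expand {k ι : Type*} [Field k] [Fintype ι] (q : ℕ) (hq : q ≠ 0) :
    z1dg ((expand q : MvPolynomial ι k →ₐ[k] MvPolynomial ι k) :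
      MvPolynomial ι k →+* MvPolynomial ι k) = q ^ Fintype.card ι := by
  classical
  let e : (ι → Fin q) → (ι →₀ ℕ) := fun a => Finsupp.equivFunOnFinite.symm fun i => (a i : ℕ)
  have he : ∀ a i, e a i = a i := fun a i => rfl
  have hq0 : 0 < q := Nat.pos_of_ne_zero hq
  rw [z1dg_basis (ι := ι → Fin q) _ (fun a => monomial (e a) (1 : k))]
  · simp
  · intro c hc a₀
    ext m
    have h1 := congrArg (coeff (q • m + e a₀)) hc
    rw [coeff_sum, Finset.sum_eq_single a₀] at h1
    · rw [coeff_mul_monomial] at h1
      simpa [coeff_expand_smul q hq] using h1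
    · intro a _ ha
      rw [coeff_mul_monomial']
      split_ifs with hle
      · obtain ⟨i, hi⟩ : ∃ i, a i ≠ a₀ i := Function.ne_iff.mp ha
        have h2 : ¬ q ∣ (q • m + e a₀ - e a) i := by
          rintro ⟨t, ht⟩
          have h3 : e a i ≤ (q • m + e a₀) i := hle i
          have h4 : q * m i + (a₀ i : ℕ) = q * t + (a i : ℕ) := by
            simp only [Finsupp.tsub_apply, Finsupp.add_apply, Finsupp.smul_apply, he,
              smul_eq_mul] at ht h3
            omega
          have h5 := congrArg (· % q) h4
          simp only [Nat.mul_add_mod, Nat.mod_eq_of_lt (a i).2, Nat.mod_eq_of_lt (a₀ i).2] at h5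
          exact hi (Fin.ext h5.symm)
        have := coeff_expand_of_not_dvd (p := q) (c a) h2
        simp only [RingHom.coe_coe]
        rw [this, zero_mul]
      · rfl
    · simp
  · intro b
    induction b using MvPolynomial.induction_on' with
    | monomial m r =>
      let m1 : ι →₀ ℕ := Finsupp.equivFunOnFinite.symm fun i => m i / q
      let a1 : ι → Fin q := fun i => ⟨m i % q, Nat.mod_lt _ hq0⟩
      refine ⟨fun a => if a = a1 then monomial m1 r else 0, ?_⟩
      rw [Finset.sum_eq_single a1]
      · have h1 : m = q • m1 + e a1 := by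
          ext i
          simp only [Finsupp.add_apply, Finsupp.smul_apply, he, smul_eq_mul]
          exact (Nat.div_add_mod (m i) q).symm
        simp only [if_true, RingHom.coe_coe, expand_monomial, monomial_mul, mul_one]
        rw [← h1]
      · intro a _ ha
        simp [ha]
      · simp
    | add p p' hp hp' =>
      obtain ⟨c, hc⟩ := hp
      obtain ⟨c', hc'⟩ := hp'
      refine ⟨c + c', ?_⟩
      conv_lhs => rw [hc, hc']
      simp [add_mul, Finset.sum_add_distrib]

/-- ZT-1: the degree of the `q`-Frobenius on a finitely generated extension `κ` of transcendence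
degree `e` of a finite field with `q` elements is `q ^ e`. -/
theorem finrank_frob {k : Type*} [Field k] [Finite k] {κ : Type*} [Field κ]
    [Algebra k κ] (hfg : Algebra.EssFiniteType k κ) (φ : κ →+* κ)
    (hφ : ∀ y, φ y = y ^ Nat.card k) :
    @Module.finrank κ κ _ _ (φ.toAlgebra).toModule =
      Nat.card k ^ Cardinal.toNat (Algebra.trdeg k κ) := by
  classical
  haveI := Fintype.ofFinite k
  have hcard : Nat.card k = Fintype.card k := Nat.card_eq_fintype_card
  obtain ⟨s, hs⟩ := exists_isTranscendenceBasis k κ
  haveI : Finite s := finite_of_isTranscendenceBasis hs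
  haveI := Fintype.ofFinite s
  have hinj : Function.Injective (MvPolynomial.aeval (R := k) ((↑) : s → κ)) := hs.1
  let A := MvPolynomial s k
  let L := FractionRing A
  let i : L →+* κ := IsFractionRing.lift (A := A) (K := L)
    (g := ((MvPolynomial.aeval (R := k) ((↑) : s → κ)) : A →+* κ)) hinj
  let φL : L →+* L := (FiniteField.frobeniusAlgHom k L : L →+* L)
  have hφL : ∀ y, φL y = y ^ Nat.card k := fun y => by
    rw [hcard]; rfl
  have h1 : z1dg φL = Nat.card k ^ Fintype.card s := by
    rw [← z1dg_expand (k := k) (ι := s) (Nat.card k) Nat.card_pos.ne']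
    refine z1dg_frac _ _ fun x => ?_
    rw [hφL, ← map_pow]
    congr 1
    have : (FiniteField.frobeniusAlgHom k A) = MvPolynomial.expand (Nat.card k) := by
      refine MvPolynomial.algHom_ext fun j => ?_
      rw [MvPolynomial.expand_X, hcard]
      rfl
    have h2 := congrArg (fun f : A →ₐ[k] A => f x) this
    simp only [FiniteField.frobeniusAlgHom_apply] at h2
    rw [← hcard] at h2
    exact h2
  have h2 : i.comp φL = φ.comp i := by
    ext y
    simp only [RingHom.comp_apply, hφL, hφ, map_pow]
  have h3 : z1dg i ≠ 0 := by
    letI := i.toAlgebra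
    haveI : IsScalarTower k L κ := by
      refine IsScalarTower.of_algebraMap_eq fun x => ?_
      change _ = i (algebraMap k L x)
      rw [IsScalarTower.algebraMap_apply k A L, IsFractionRing.lift_algebraMap]
      simp [A, MvPolynomial.algebraMap_eq]
    haveI : Algebra.EssFiniteType L κ := Algebra.EssFiniteType.of_comp k L κ
    haveI : Algebra.IsAlgebraic L κ := by
      haveI := hs.isAlgebraic
      have hs1 : AlgebraicIndependent k ((↑) : s → κ) := hs.1
      let f : Algebra.adjoin k (Set.range ((↑) : s → κ)) →+* L :=
        (algebraMap A L).comp (hs1.aevalEquiv.symm.toRingEquiv.toRingHom)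
      have hf : ∀ z : A, f (hs1.aevalEquiv z) = algebraMap A L z := fun z =>
        congrArg (algebraMap A L) (hs1.aevalEquiv.symm_apply_apply z)
      refine Algebra.IsAlgebraic.ringHom_of_comp_eq f (RingHom.id κ) ?_
          Function.surjective_id ?_
      · exact (IsFractionRing.injective A L).comp (hs1.aevalEquiv.symm).injective
      · refine RingHom.ext fun y => ?_
        obtain ⟨z, rfl⟩ := hs1.aevalEquiv.surjective y
        change i (f (hs1.aevalEquiv z)) = _
        rw [hf, IsFractionRing.lift_algebraMap]
        exact (hs1.algebraMap_aevalEquiv z).symm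
    haveI : Module.Finite L κ := Algebra.finite_of_essFiniteType_of_isAlgebraic
    exact (Module.finrank_pos (R := L) (M := κ)).ne'
  have h4 := z1dg_comp φL i
  rw [h2, z1dg_comp, h1, mul_comm] at h4
  have h5 := Nat.eq_of_mul_eq_mul_right (Nat.pos_of_ne_zero h3) h4
  have h6 : Cardinal.toNat (Algebra.trdeg k κ) = Fintype.card s := by
    rw [← hs.cardinalMk_eq_trdeg]
    simp
  rw [h6]
  exact h5

end Pool.Agent.Helper11.Zt
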