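import Mathlib

open Polynomial TensorProduct

namespace Pool.Agent.Helper11.Zt

/-- ZT-5a: the characteristic polynomial on a direct sum of two stable subspaces. -/
theorem charpoly_sup {K : Type*} [Field K] {M : Type*} [AddCommGroup M] [Module K M]
    [FiniteDimensional K M] (g : Module.End K M) (A B T : Submodule K M)
    (hA : ∀ x ∈ A, g x ∈ A) (hB : ∀ x ∈ B, g x ∈ B) (hT : ∀ x ∈ T, g x ∈ T)
    (hdisj : Disjoint A B) (hsup : A ⊔ B = T) :
    (g.restrict hT).charpoly = (g.restrict hA).charpoly * (g.restrict hB).charpoly := by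
  have hAT : A ≤ T := hsup ▸ le_sup_left
  have hBT : B ≤ T := hsup ▸ le_sup_right
  let φ : (A × B) →ₗ[K] T := (Submodule.inclusion hAT).coprod (Submodule.inclusion hBT)
  have hφ : ∀ x : A × B, ((φ x : T) : M) = (x.1 : M) + (x.2 : M) := by
    intro x
    simp [φ]
  have hinj : Function.Injective φ := by
    rw [← LinearMap.ker_eq_bot, LinearMap.ker_eq_bot']
    intro x hx
    have h1 : (x.1 : M) + (x.2 : M) = 0 := by rw [← hφ x, hx]; rfl
    have h2 : (x.1 : M) ∈ A ⊓ B := by
      refine ⟨x.1.2, ?_⟩
      have h3 : (x.1 : M) = -(x.2 : M) := eq_neg_of_add_eq_zero_left h1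
      rw [h3]
      exact B.neg_mem x.2.2
    rw [hdisj.eq_bot] at h2
    have h4 : (x.1 : M) = 0 := by simpa using h2
    have h5 : (x.2 : M) = 0 := by rw [h4, zero_add] at h1; exact h1
    exact Prod.ext (Subtype.ext h4) (Subtype.ext h5)
  have hsurj : Function.Surjective φ := by
    intro y
    have hy : (y : M) ∈ A ⊔ B := by rw [hsup]; exact y.2
    obtain ⟨a, ha, b, hb, hab⟩ := Submodule.mem_sup.1 hy
    refine ⟨(⟨a, ha⟩, ⟨b, hb⟩), Subtype.ext ?_⟩
    rw [hφ]
    exact hab
  let e : (A × B) ≃ₗ[K] T := LinearEquiv.ofBijective φ ⟨hinj, hsurj⟩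
  have hconj : e.conj ((g.restrict hA).prodMap (g.restrict hB)) = g.restrict hT := by
    apply LinearMap.ext
    intro y
    obtain ⟨x, rfl⟩ := e.surjective y
    rw [LinearEquiv.conj_apply_apply, LinearEquiv.symm_apply_apply]
    apply Subtype.ext
    have h1 : ∀ z, ((e z : T) : M) = (z.1 : M) + (z.2 : M) := hφ
    rw [h1, LinearMap.coe_restrict_apply, h1, map_add]
    rfl
  rw [← hconj, LinearEquiv.charpoly_conj, LinearMap.charpoly_prodMap]

theorem z5_aeval_restrict {K : Type*} [Field K] {M : Type*} [AddCommGroup M] [Module K M]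
    (g : Module.End K M) (A : Submodule K M) (hA : ∀ x ∈ A, g x ∈ A) (p : K[X]) (x : A) :
    ((aeval (g.restrict hA) p x : A) : M) = aeval g p (x : M) := by
  induction p using Polynomial.induction_on' with
  | add p q hp hq => simp only [map_add, LinearMap.add_apply, Submodule.coe_add, hp, hq]
  | monomial n c =>
    rw [aeval_monomial, aeval_monomial]
    have h : ∀ n : ℕ, (((g.restrict hA) ^ n) x : M) = (g ^ n) (x : M) := by
      intro n
      induction n with
      | zero => simp
      | succ n ih =>
        rw [pow_succ', pow_succ', Module.End.mul_apply, Module.End.mul_apply,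
          LinearMap.coe_restrict_apply, ih]
    rw [Module.End.mul_apply, Module.End.mul_apply, Module.algebraMap_end_apply,
      Module.algebraMap_end_apply, Submodule.coe_smul, h]

/-- ZT-5b: if the characteristic polynomials on two stable subspaces are coprime, some polynomial
in `g` is the identity on the first and zero on the second subspace. -/
theorem exists_poly {K : Type*} [Field K] {M : Type*} [AddCommGroup M] [Module K M]
    [FiniteDimensional K M] (g : Module.End K M) (A B : Submodule K M)
    (hA : ∀ x ∈ A, g x ∈ A) (hB : ∀ x ∈ B, g x ∈ B)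
    (hcop : IsCoprime (g.restrict hA).charpoly (g.restrict hB).charpoly) :
    ∃ p : K[X], (∀ x ∈ A, aeval g p x = x) ∧ ∀ x ∈ B, aeval g p x = 0 := by
  obtain ⟨u, v, huv⟩ := hcop
  refine ⟨v * (g.restrict hB).charpoly, fun x hx => ?_, fun x hx => ?_⟩
  · have h1 : v * (g.restrict hB).charpoly = 1 - u * (g.restrict hA).charpoly := by
      rw [← huv]; ring
    rw [h1, ← z5_aeval_restrict g A hA _ ⟨x, hx⟩, map_sub, map_one, map_mul,
      LinearMap.aeval_self_charpoly, mul_zero, sub_zero]
    rfl
  · rw [← z5_aeval_restrict g B hB _ ⟨x, hx⟩, map_mul, LinearMap.aeval_self_charpoly, mul_zero]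
    rfl

/-- ZT-6: an eigenvalue, with eigenvector in `Ω ⊗ M`, has an eigenvector in the dual of `M` with
values in `Ω`. -/
theorem exists_eigenform {K : Type*} [Field K] {Ω : Type*} [Field Ω] [Algebra K Ω] {M : Type*}
    [AddCommGroup M] [Module K M] [FiniteDimensional K M] (f : Module.End K M) (a : Ω)
    (y : Ω ⊗[K] M) (hy : y ≠ 0) (h : (f.baseChange Ω) y = a • y) :
    ∃ l : M →ₗ[K] Ω, l ≠ 0 ∧ ∀ x, l (f x) = a * l x := by
  set F : Module.End Ω (Ω ⊗[K] M) := f.baseChange Ω with hF
  set D : Module.End Ω (Ω ⊗[K] M) := F - a • LinearMap.id with hD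
  have hDy : D y = 0 := by
    rw [hD, LinearMap.sub_apply, LinearMap.smul_apply, LinearMap.id_apply, h, sub_self]
  have hninj : ¬ Function.Injective D := fun hi => hy (hi (by rw [hDy, map_zero]))
  have hnsurj : ¬ Function.Surjective D := fun hs =>
    hninj (LinearMap.injective_iff_surjective.2 hs)
  have hlt : LinearMap.range D < ⊤ := by
    rw [lt_top_iff_ne_top]
    intro ht
    exact hnsurj (LinearMap.range_eq_top.1 ht)
  obtain ⟨L, hL0, hL⟩ := Submodule.exists_le_ker_of_lt_top _ hlt
  have hLF : ∀ v, L (F v) = a * L v := by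
    intro v
    have h1 : L (D v) = 0 := hL (LinearMap.mem_range_self D v)
    rw [hD, LinearMap.sub_apply, LinearMap.smul_apply, LinearMap.id_apply, map_sub, map_smul,
      sub_eq_zero] at h1
    exact h1
  let l : M →ₗ[K] Ω :=
    { toFun := fun x => L ((1 : Ω) ⊗ₜ[K] x)
      map_add' := fun x z => by rw [TensorProduct.tmul_add, map_add]
      map_smul' := fun c x => by
        rw [RingHom.id_apply, TensorProduct.tmul_smul, Algebra.smul_def c (L _), ← smul_eq_mul,
          ← map_smul, algebraMap_smul] }
  refine ⟨l, ?_, fun x => ?_⟩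
  · intro hl
    apply hL0
    apply LinearMap.ext
    intro v
    induction v using TensorProduct.induction_on with
    | zero => simp
    | add v w hv hw => rw [map_add, map_add, hv, hw]
    | tmul c x =>
      have h1 : l x = 0 := by rw [hl]; rfl
      have h2 : L ((1 : Ω) ⊗ₜ[K] x) = 0 := h1
      have h3 : c ⊗ₜ[K] x = c • ((1 : Ω) ⊗ₜ[K] x) := by
        rw [TensorProduct.smul_tmul', smul_eq_mul, mul_one]
      rw [h3, map_smul, h2, smul_zero, LinearMap.zero_apply]
  · have h1 := hLF ((1 : Ω) ⊗ₜ[K] x)
    rw [hF, LinearMap.baseChange_tmul] at h1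
    exact h1

/-- ZT-7: a matrix computation of the characteristic polynomial and of the determinant on a
submodule. -/
theorem charpoly_eq_of_basis {K : Type*} [Field K] {M : Type*} [AddCommGroup M] [Module K M]
    [FiniteDimensional K M] (g : Module.End K M) (T : Submodule K M) (hT : ∀ x ∈ T, g x ∈ T) {n : ℕ}
    (b : Module.Basis (Fin n) K T) (A : Matrix (Fin n) (Fin n) K)
    (hA : ∀ j, g (b j : M) = ∑ i, A i j • (b i : M)) :
    (g.restrict hT).charpoly = A.charpoly ∧ A.det = LinearMap.det (g.restrict hT) ∧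
      A.det = (-1) ^ n * (A.charpoly).coeff 0 := by
  have hmat : LinearMap.toMatrix b b (g.restrict hT) = A := by
    have h1 : g.restrict hT = Matrix.toLin b b A := by
      apply b.ext
      intro j
      rw [Matrix.toLin_self]
      apply Subtype.ext
      rw [LinearMap.coe_restrict_apply, hA j]
      simp
    rw [h1, LinearMap.toMatrix_toLin]
  refine ⟨?_, ?_, ?_⟩
  · rw [← LinearMap.charpoly_toMatrix (g.restrict hT) b, hmat]
  · rw [← LinearMap.det_toMatrix b, hmat]
  · rw [Matrix.det_eq_sign_charpoly_coeff, Fintype.card_fin]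

end Pool.Agent.Helper11.Zt
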