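import Mathlib

open Polynomial

namespace Pool.Agent.Helper11.Zt

open Module.Basis in
private lemma zt2_charpoly_eq_mul {K : Type*} [Field K] {V : Type*} [AddCommGroup V] [Module K V]
    [FiniteDimensional K V] (W : Submodule K V) (e : V →ₗ[K] V) (he : W ≤ W.comap e) :
    e.charpoly = (e.restrict he).charpoly * (W.mapQ W e he).charpoly := by
  classical
  let m := Module.Free.ChooseBasisIndex K W
  let bW : Module.Basis m K W := Module.Free.chooseBasis K W
  let n := Module.Free.ChooseBasisIndex K (V ⧸ W)
  let bQ : Module.Basis n K (V ⧸ W) := Module.Free.chooseBasis K (V ⧸ W)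
  let b := sumQuot bW bQ
  let A : Matrix m m K := LinearMap.toMatrix bW bW (e.restrict he)
  let B : Matrix m n K := Matrix.of fun i l ↦
    ((sumQuot bW bQ).repr (e ((sumQuot bW bQ) (Sum.inr l)))) (Sum.inl i)
  let D : Matrix n n K := LinearMap.toMatrix bQ bQ (W.mapQ W e he)
  suffices LinearMap.toMatrix b b e = Matrix.fromBlocks A B 0 D by
    rw [← LinearMap.charpoly_toMatrix e b, this, ← LinearMap.charpoly_toMatrix _ bW,
      ← LinearMap.charpoly_toMatrix _ bQ, Matrix.charpoly_fromBlocks_zero₂₁]
  ext u v
  cases u with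
  | inl i =>
    cases v with
    | inl k =>
      simp only [b, sumQuot_inl, Matrix.fromBlocks_apply₁₁, A, LinearMap.toMatrix_apply]
      apply sumQuot_repr_inl_of_mem
    | inr l => simp [b, LinearMap.toMatrix_apply, Matrix.fromBlocks_apply₁₂, B]
  | inr j =>
    cases v with
    | inl k =>
      suffices W.mkQ (e (bW k)) = 0 by simp [LinearMap.toMatrix_apply, b, this]
      rw [← LinearMap.mem_ker, Submodule.ker_mkQ]
      exact he (Submodule.coe_mem (bW k))
    | inr l =>
      simp only [LinearMap.toMatrix_apply, sumQuot_repr_inr,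
        Matrix.fromBlocks_apply₂₂, b, D]
      rw [← sumQuot_inr bW bQ l, W.mapQ_apply]
      simp

/-- a surjective intertwiner makes the characteristic polynomial of the target divide that of the
source -/
private lemma zt2_dvd_of_surjective {K : Type*} [Field K] {V W : Type*} [AddCommGroup V]
    [Module K V] [FiniteDimensional K V] [AddCommGroup W] [Module K W] [FiniteDimensional K W]
    (f : Module.End K V) (h : Module.End K W) (p : V →ₗ[K] W) (hp : Function.Surjective p)
    (hc : ∀ x, p (f x) = h (p x)) : h.charpoly ∣ f.charpoly := by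
  have he : LinearMap.ker p ≤ (LinearMap.ker p).comap f := by
    intro x hx
    rw [Submodule.mem_comap, LinearMap.mem_ker, hc, LinearMap.mem_ker.1 hx, map_zero]
  rw [zt2_charpoly_eq_mul (LinearMap.ker p) f he]
  refine Dvd.dvd.mul_left ?_ _
  have key := LinearEquiv.charpoly_conj (p.quotKerEquivOfSurjective hp)
    ((LinearMap.ker p).mapQ (LinearMap.ker p) f he)
  rw [← key]
  refine dvd_of_eq ?_
  congr 1
  ext y
  obtain ⟨x, rfl⟩ := hp y
  rw [LinearEquiv.conj_apply_apply]
  have h1 : (p.quotKerEquivOfSurjective hp).symm (p x) = Submodule.Quotient.mk x := by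
    rw [LinearEquiv.symm_apply_eq]
    rfl
  rw [h1, Submodule.mapQ_apply]
  rw [← hc]
  rfl

private lemma zt2_charpoly_smul {K : Type*} [Field K] {n : Type*} [Fintype n] [DecidableEq n]
    (A : Matrix n n K) {s : K} (hs : s ≠ 0) :
    (s • A).charpoly = A.charpoly.scaleRoots s := by
  have h1 : A.charpoly.scaleRoots s = C (s ^ Fintype.card n) * A.charpoly.comp (C s⁻¹ * X) := by
    ext i
    rw [coeff_scaleRoots, coeff_C_mul, comp_C_mul_X_coeff, Matrix.charpoly_natDegree_eq_dim]
    rcases le_or_gt i (Fintype.card n) with hi | hi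
    · have : s ^ Fintype.card n = s ^ (Fintype.card n - i) * s ^ i := by
        rw [← pow_add, Nat.sub_add_cancel hi]
      have h2 : s ^ i * s⁻¹ ^ i = 1 := by rw [← mul_pow, mul_inv_cancel₀ hs, one_pow]
      rw [this]
      linear_combination -(A.charpoly.coeff i * s ^ (Fintype.card n - i)) * h2
    · rw [coeff_eq_zero_of_natDegree_lt (by rwa [Matrix.charpoly_natDegree_eq_dim])]
      ring
  rw [h1, Matrix.charpoly, Matrix.charpoly, C_pow, ← Polynomial.coe_compRingHom_apply,
    RingHom.map_det, ← Matrix.det_smul]
  congr 1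
  ext i j : 1
  have hss : (C s : K[X]) * C s⁻¹ = 1 := by rw [← C_mul, mul_inv_cancel₀ hs, C_1]
  rcases eq_or_ne i j with rfl | hij
  · simp [Matrix.charmatrix_apply_eq, mul_sub, ← mul_assoc, hss]
  · simp [Matrix.charmatrix_apply_ne _ _ _ hij]

/-- ZT-2: the characteristic polynomial of a similitude `g` (with multiplier `s`) on a totally
isotropic stable subspace `F`, times its dual, divides the characteristic polynomial of `g`. -/
theorem charpoly_mul_dual_dvd {K : Type*} [Field K] {T : Type*}
    [AddCommGroup T] [Module K T] [FiniteDimensional K T] (B : T →ₗ[K] T →ₗ[K] K)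
    (hnd : ∀ y, (∀ x, B x y = 0) → y = 0) (g : Module.End K T) {s : K} (hs : s ≠ 0)
    (hg : ∀ x y, B (g x) (g y) = s * B x y) (F : Submodule K T) (hF : ∀ x ∈ F, g x ∈ F)
    (hiso : ∀ x ∈ F, ∀ y ∈ F, B x y = 0) :
    (g.restrict hF).charpoly * ((g.restrict hF).charpoly.reverse.scaleRoots s) ∣ g.charpoly := by
  classical
  -- injectivity
  have hginj : Function.Injective g := by
    rw [← LinearMap.ker_eq_bot, LinearMap.ker_eq_bot']
    intro y hy
    refine hnd y fun x => ?_
    have := hg x y
    rw [hy, map_zero] at this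
    exact (mul_eq_zero.1 this.symm).resolve_left hs
  set gF : Module.End K F := g.restrict hF with hgF
  have hFinj : Function.Injective gF := by
    intro a b hab
    have := congrArg Subtype.val hab
    exact Subtype.ext (hginj this)
  -- the pairing T -> dual of F
  let π : T →ₗ[K] Module.Dual K F := (Module.Dual.transpose F.subtype) ∘ₗ B.flip
  have hπ : ∀ y (x : F), π y x = B x y := fun y x => rfl
  have hflip : Function.Injective B.flip := by
    rw [← LinearMap.ker_eq_bot, LinearMap.ker_eq_bot']
    intro y hy
    exact hnd y fun x => by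
      have := LinearMap.congr_fun hy x
      simpa using this
  have hflip' : Function.Surjective B.flip :=
    (LinearMap.injective_iff_surjective_of_finrank_eq_finrank
      (Subspace.dual_finrank_eq).symm).1 hflip
  have hπs : Function.Surjective π := by
    exact (LinearMap.dualMap_surjective_of_injective F.injective_subtype).comp hflip'
  -- the quotient of T by F
  have he : F ≤ F.comap g := hF
  rw [zt2_charpoly_eq_mul F g he]
  refine mul_dvd_mul_left _ ?_
  let π' : (T ⧸ F) →ₗ[K] Module.Dual K F := F.liftQ π (by
    intro y hy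
    rw [LinearMap.mem_ker]
    ext x
    exact hiso x x.2 y hy)
  have hπs' : Function.Surjective π' := by
    intro φ
    obtain ⟨y, hy⟩ := hπs φ
    exact ⟨Submodule.Quotient.mk y, hy⟩
  -- the inverse of gF
  let gFe : F ≃ₗ[K] F := LinearEquiv.ofInjectiveEndo gF hFinj
  let h : Module.End K (Module.Dual K F) := s • (gFe.symm : F →ₗ[K] F).dualMap
  have hc : ∀ x, π' (F.mapQ F g he x) = h (π' x) := by
    intro z
    obtain ⟨y, rfl⟩ := Submodule.Quotient.mk_surjective F z
    ext x
    rw [Submodule.mapQ_apply]
    change B x (g y) = s * B (gFe.symm x : F) y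
    rw [← hg]
    congr 2
    have : gFe (gFe.symm x) = x := gFe.apply_symm_apply x
    have h2 := congrArg Subtype.val this
    exact h2.symm
  refine dvd_trans ?_ (zt2_dvd_of_surjective _ h π' hπs' hc)
  -- matrices
  let b := Module.Free.chooseBasis K F
  let A := LinearMap.toMatrix b b gF
  have hA : gF.charpoly = A.charpoly := (LinearMap.charpoly_toMatrix gF b).symm
  have hAinv : LinearMap.toMatrix b b (gFe.symm : F →ₗ[K] F) = A⁻¹ := by
    symm
    apply Matrix.inv_eq_right_inv
    rw [← LinearMap.toMatrix_comp b b b]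
    have : gF ∘ₗ (gFe.symm : F →ₗ[K] F) = LinearMap.id := by
      ext x
      have : gFe (gFe.symm x) = x := gFe.apply_symm_apply x
      exact congrArg Subtype.val this
    rw [this, LinearMap.toMatrix_id]
  have hAu : IsUnit A := by
    have h1 : A * LinearMap.toMatrix b b (gFe.symm : F →ₗ[K] F) = 1 := by
      rw [← LinearMap.toMatrix_comp b b b]
      have : gF ∘ₗ (gFe.symm : F →ₗ[K] F) = LinearMap.id := by
        ext x
        have : gFe (gFe.symm x) = x := gFe.apply_symm_apply x
        exact congrArg Subtype.val this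
      rw [this, LinearMap.toMatrix_id]
    exact IsUnit.of_mul_eq_one _ h1
  have hh : h.charpoly = (s • A⁻¹).charpoly := by
    rw [← LinearMap.charpoly_toMatrix h b.dualBasis]
    have : LinearMap.toMatrix b.dualBasis b.dualBasis h = (s • A⁻¹).transpose := by
      rw [Matrix.transpose_smul, ← hAinv]
      change LinearMap.toMatrix b.dualBasis b.dualBasis
        (s • (gFe.symm : F →ₗ[K] F).dualMap) = _
      rw [map_smul]
      congr 1
      rw [LinearMap.dualMap_def, LinearMap.toMatrix_transpose]
    rw [this, Matrix.charpoly_transpose]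
  rw [hh, zt2_charpoly_smul _ hs, Matrix.charpoly_inv A hAu, mul_scaleRoots_of_noZeroDivisors, hA,
    Matrix.reverse_charpoly]
  exact dvd_mul_left _ _

end Pool.Agent.Helper11.Zt
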