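import Mathlib

open Polynomial

namespace Pool.Agent.Helper11.Zt

/-- Auxiliary: the characteristic polynomial on a stable subspace divides the whole one. -/
theorem Z3_dvd {K N : Type*} [Field K] [AddCommGroup N] [Module K N] [FiniteDimensional K N]
    (e : Module.End K N) (W : Submodule K N) (hW : ∀ x ∈ W, e x ∈ W) :
    (e.restrict hW).charpoly ∣ e.charpoly := by
  classical
  obtain ⟨C, hC⟩ := Submodule.exists_isCompl W
  let bW := Module.finBasis K W
  let bC := Module.finBasis K C
  let b := (bW.prod bC).map (Submodule.prodEquivOfIsCompl W C hC)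
  have hb : ∀ j, e (b (Sum.inl j)) =
      Submodule.prodEquivOfIsCompl W C hC ((e.restrict hW) (bW j), 0) := by
    intro j
    simp [b]
  have hr : ∀ j, b.repr (e (b (Sum.inl j))) = (bW.prod bC).repr ((e.restrict hW) (bW j), 0) := by
    intro j
    rw [hb j]
    change (bW.prod bC).repr ((Submodule.prodEquivOfIsCompl W C hC).symm _) = _
    rw [LinearEquiv.symm_apply_apply]
  set A := LinearMap.toMatrix b b e with hA
  have h21 : A.toBlocks₂₁ = 0 := by
    ext i j
    rw [Matrix.toBlocks₂₁, Matrix.of_apply, hA, LinearMap.toMatrix_apply, hr]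
    simp
  have h11 : A.toBlocks₁₁ = LinearMap.toMatrix bW bW (e.restrict hW) := by
    ext i j
    rw [Matrix.toBlocks₁₁, Matrix.of_apply, hA, LinearMap.toMatrix_apply, hr,
      LinearMap.toMatrix_apply]
    simp
  have h1 : A.charpoly = e.charpoly := LinearMap.charpoly_toMatrix e b
  have h2 : (LinearMap.toMatrix bW bW (e.restrict hW)).charpoly = (e.restrict hW).charpoly :=
    LinearMap.charpoly_toMatrix _ _
  rw [← h1, ← h2, ← h11, ← Matrix.fromBlocks_toBlocks A, h21, Matrix.charpoly_fromBlocks_zero₂₁]
  simp

/-- ZT-3: the characteristic polynomial on a smaller stable subspace divides the one on a larger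
stable subspace. -/
theorem charpoly_restrict_dvd {K : Type*} [Field K] {M : Type*}
    [AddCommGroup M] [Module K M] [FiniteDimensional K M] (g : Module.End K M)
    (F F' : Submodule K M) (hF : ∀ x ∈ F, g x ∈ F) (hF' : ∀ x ∈ F', g x ∈ F') (h : F' ≤ F) :
    (g.restrict hF').charpoly ∣ (g.restrict hF).charpoly := by
  have hW : ∀ x ∈ F'.submoduleOf F, (g.restrict hF) x ∈ F'.submoduleOf F := by
    intro x hx
    exact hF' _ hx
  have h1 := Z3_dvd (g.restrict hF) (F'.submoduleOf F) hW
  have h2 : ((g.restrict hF).restrict hW).charpoly = (g.restrict hF').charpoly := by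
    rw [← LinearEquiv.charpoly_conj (Submodule.submoduleOfEquivOfLe h)]
    congr 1
  rw [← h2]
  exact h1

end Pool.Agent.Helper11.Zt
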