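import Mathlib

open Polynomial

namespace Pool.Agent.Helper11.Zt

private theorem zt4_dual_coeff_zero {K : Type*} [Field K] (t : K) (p : K[X]) (hp : p.Monic) :
    (p.reverse.scaleRoots t).coeff 0 = t ^ p.reverse.natDegree := by
  rw [coeff_scaleRoots, coeff_zero_reverse, hp.leadingCoeff, one_mul, Nat.sub_zero]

private theorem zt4_dual_leadingCoeff {K : Type*} [Field K] (t : K) (p : K[X])
    (h0 : p.coeff 0 ≠ 0) : (p.reverse.scaleRoots t).leadingCoeff = p.coeff 0 := by
  rw [leadingCoeff, natDegree_scaleRoots, coeff_scaleRoots_natDegree, reverse_leadingCoeff,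
    trailingCoeff]
  have : p.natTrailingDegree = 0 := by
    rw [natTrailingDegree_eq_zero]
    exact Or.inr h0
  rw [this]

private theorem zt4_assoc {K : Type*} [Field K] (t : K) (p h : K[X]) (hp : p.Monic)
    (hh : h.Monic) (h0 : h.coeff 0 ≠ 0) (ha : Associated p (h.reverse.scaleRoots t)) :
    p.coeff 0 * h.coeff 0 = t ^ h.reverse.natDegree := by
  obtain ⟨w, hw⟩ := ha
  obtain ⟨r, -, hr⟩ := Polynomial.isUnit_iff.1 w.isUnit
  rw [← hr] at hw
  have h1 := zt4_dual_leadingCoeff t h h0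
  have h2 := zt4_dual_coeff_zero t h hh
  rw [← hw, leadingCoeff_mul, hp.leadingCoeff, one_mul, leadingCoeff_C] at h1
  rw [← hw, coeff_mul_C, h1] at h2
  exact h2

/-- ZT-4. Let `P` be a square-free polynomial over `K` with `P(0) ≠ 0`, `t ≠ 0`, and call
`p.reverse.scaleRoots t` (with roots `t / a`, for the roots `a` of `p`) the dual of `p`. Let
`h 0, …, h (s - 1)` be monic divisors of `P` such that every monic irreducible factor of `P` is
self-dual, or one of the `h j`, or dual to one of the `h j`, and suppose that the `h j (0)` are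
multiplicatively independent modulo the group `A`, which contains `t`. Let `Q` be a monic polynomial
such that, for all monic irreducible factors `p` of `Q`, `p` divides `P`, and the dual of `p` does
not divide `Q` (in particular `p` is not self-dual). If some positive power of `Q(0)` is in `A` then
`Q = 1`. -/
theorem eq_one_of_relation {K : Type*} [Field K] (t : K) (ht : t ≠ 0) (A : Subgroup Kˣ)
    (htA : ∃ u ∈ A, (u : K) = t) (P : K[X]) (hP0 : P.coeff 0 ≠ 0) {s : ℕ}
    (h : Fin s → K[X]) (hm : ∀ j, (h j).Monic) (hd : ∀ j, h j ∣ P)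
    (hfac : ∀ p : K[X], p.Monic → Irreducible p → p ∣ P →
      Associated p (p.reverse.scaleRoots t) ∨
        ∃ j, p = h j ∨ Associated p ((h j).reverse.scaleRoots t))
    (hind : ∀ n : Fin s → ℤ, (∃ u ∈ A, (u : K) = ∏ j, (h j).coeff 0 ^ n j) → n = 0)
    (Q : K[X]) (hQ : Q.Monic)
    (hQP : ∀ p : K[X], p.Monic → Irreducible p → p ∣ Q →
      p ∣ P ∧ ¬ (p.reverse.scaleRoots t) ∣ Q)
    {m : ℕ} (hm0 : 0 < m) (hrel : ∃ u ∈ A, (u : K) = Q.coeff 0 ^ m) : Q = 1 := by
  classical
  have hc : ∀ g : K[X], g ∣ P → g.coeff 0 ≠ 0 := by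
    rintro g ⟨g', rfl⟩ hg
    rw [mul_coeff_zero, hg, zero_mul] at hP0
    exact hP0 rfl
  have hh0 : ∀ j, (h j).coeff 0 ≠ 0 := fun j => hc _ (hd j)
  -- the relation
  let R : K → (Fin s → ℤ) → Prop := fun x n => ∃ u ∈ A, x = (u : K) * ∏ j, (h j).coeff 0 ^ n j
  have R1 : R 1 0 := ⟨1, A.one_mem, by simp⟩
  have Rmul : ∀ x y n n', R x n → R y n' → R (x * y) (n + n') := by
    rintro x y n n' ⟨u, hu, rfl⟩ ⟨v, hv, rfl⟩
    refine ⟨u * v, A.mul_mem hu hv, ?_⟩
    have : ∏ j, (h j).coeff 0 ^ (n + n') j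
        = (∏ j, (h j).coeff 0 ^ n j) * ∏ j, (h j).coeff 0 ^ n' j := by
      rw [← Finset.prod_mul_distrib]
      exact Finset.prod_congr rfl (fun j _ => by rw [Pi.add_apply, zpow_add₀ (hh0 j)])
    rw [this, Units.val_mul]
    ring
  have Rpow : ∀ x n (k : ℕ), R x n → R (x ^ k) (k • n) := by
    intro x n k hx
    induction k with
    | zero => simpa using R1
    | succ k ih =>
      rw [pow_succ, succ_nsmul]
      exact Rmul _ _ _ _ ih hx
  obtain ⟨τ, hτA, hτ⟩ := htA
  -- factors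
  have key : ∀ p : K[X], p.Monic → Irreducible p → p ∣ Q →
      ∃ (j : Fin s) (e : ℤ), R (p.coeff 0) (Pi.single j e) ∧
        ((e = 1 ∧ p = h j) ∨ (e = -1 ∧ Associated p ((h j).reverse.scaleRoots t))) := by
    intro p hpm hpi hpQ
    obtain ⟨hpP, hpd⟩ := hQP p hpm hpi hpQ
    rcases hfac p hpm hpi hpP with h1 | ⟨j, h1 | h1⟩
    · exact absurd (h1.symm.dvd.trans hpQ) hpd
    · refine ⟨j, 1, ⟨1, A.one_mem, ?_⟩, Or.inl ⟨rfl, h1⟩⟩
      rw [Finset.prod_eq_single j]
      · rw [Pi.single_eq_same, h1]; simp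
      · intro i _ hij
        rw [Pi.single_eq_of_ne hij, zpow_zero]
      · intro hj; exact absurd (Finset.mem_univ j) hj
    · refine ⟨j, -1, ⟨τ ^ (h j).reverse.natDegree, A.pow_mem hτA _, ?_⟩, Or.inr ⟨rfl, h1⟩⟩
      rw [Finset.prod_eq_single j]
      · rw [Pi.single_eq_same, Units.val_pow_eq_pow_val, hτ,
          ← zt4_assoc t p (h j) hpm (hm j) (hh0 j) h1, zpow_neg_one,
          mul_assoc, mul_inv_cancel₀ (hh0 j), mul_one]
      · intro i _ hij
        rw [Pi.single_eq_of_ne hij, zpow_zero]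
      · intro hj; exact absurd (Finset.mem_univ j) hj
  set S := UniqueFactorizationMonoid.normalizedFactors Q with hS
  have hSm : ∀ p ∈ S, p.Monic := by
    intro p hp
    have h1 := UniqueFactorizationMonoid.normalize_normalized_factor p hp
    rw [← h1]
    exact Polynomial.monic_normalize
      (UniqueFactorizationMonoid.irreducible_of_normalized_factor p hp).ne_zero
  have hSi : ∀ p ∈ S, Irreducible p := fun p hp =>
    UniqueFactorizationMonoid.irreducible_of_normalized_factor p hp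
  have hSd : ∀ p ∈ S, p ∣ Q := fun p hp =>
    UniqueFactorizationMonoid.dvd_of_mem_normalizedFactors hp
  have hprod : S.prod = Q := by
    have h1 := UniqueFactorizationMonoid.prod_normalizedFactors hQ.ne_zero
    exact Polynomial.eq_of_monic_of_associated
      (Polynomial.monic_multiset_prod_of_monic _ _ hSm |> fun h => by simpa using h) hQ h1
  by_cases hSe : S = 0
  · rw [← hprod, hSe, Multiset.prod_zero]
  exfalso
  obtain ⟨p₀, hp₀⟩ := Multiset.exists_mem_of_ne_zero hSe
  have _ : Nonempty (Fin s) := by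
    obtain ⟨j, -⟩ := key p₀ (hSm p₀ hp₀) (hSi p₀ hp₀) (hSd p₀ hp₀)
    exact ⟨j⟩
  choose! J e hR hJ using key
  have hRS : ∀ T : Multiset K[X], (∀ p ∈ T, p ∈ S) →
      R (T.prod.coeff 0) ((T.map fun p => (Pi.single (J p) (e p) : Fin s → ℤ)).sum) := by
    intro T
    induction T using Multiset.induction_on with
    | empty => intro _; simpa using R1
    | cons p T ih =>
      intro hT
      have hp : p ∈ S := hT p (Multiset.mem_cons_self p T)
      rw [Multiset.prod_cons, mul_coeff_zero, Multiset.map_cons, Multiset.sum_cons]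
      exact Rmul _ _ _ _ (hR p (hSm p hp) (hSi p hp) (hSd p hp))
        (ih (fun q hq => hT q (Multiset.mem_cons_of_mem hq)))
  have hRQ := hRS S (fun p hp => hp)
  rw [hprod] at hRQ
  set N := (S.map fun p => (Pi.single (J p) (e p) : Fin s → ℤ)).sum with hN
  have hN0 : N = 0 := by
    obtain ⟨u, hu, hu'⟩ := Rpow _ _ m hRQ
    obtain ⟨v, hv, hv'⟩ := hrel
    have h1 : m • N = 0 := by
      refine hind _ ⟨u⁻¹ * v, A.mul_mem (A.inv_mem hu) hv, ?_⟩
      rw [Units.val_mul, hv', hu', ← mul_assoc, Units.inv_mul, one_mul]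
    funext j
    have h2 : (m • N) j = 0 := by rw [h1]; rfl
    rw [Pi.smul_apply, nsmul_eq_mul] at h2
    rcases mul_eq_zero.1 h2 with h3 | h3
    · exact absurd h3 (by exact_mod_cast hm0.ne')
    · exact h3
  have he : ∀ p ∈ S, e p = 1 ∨ e p = -1 := by
    intro p hp
    rcases hJ p (hSm p hp) (hSi p hp) (hSd p hp) with h1 | h1
    · exact Or.inl h1.1
    · exact Or.inr h1.1
  have hsame : ∀ p ∈ S, J p = J p₀ → e p = e p₀ := by
    intro p hp hj
    have a1 := hJ p (hSm p hp) (hSi p hp) (hSd p hp)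
    have a2 := hJ p₀ (hSm p₀ hp₀) (hSi p₀ hp₀) (hSd p₀ hp₀)
    rw [hj] at a1
    rcases a1 with ⟨b1, c1⟩ | ⟨b1, c1⟩ <;> rcases a2 with ⟨b2, c2⟩ | ⟨b2, c2⟩
    · rw [b1, b2]
    · exfalso
      apply (hQP p (hSm p hp) (hSi p hp) (hSd p hp)).2
      rw [c1]
      exact c2.symm.dvd.trans (hSd p₀ hp₀)
    · exfalso
      apply (hQP p₀ (hSm p₀ hp₀) (hSi p₀ hp₀) (hSd p₀ hp₀)).2
      rw [c2]
      exact c1.symm.dvd.trans (hSd p hp)
    · rw [b1, b2]
  have hval : e p₀ * N (J p₀) = (S.map fun p => if J p = J p₀ then (1 : ℤ) else 0).sum := by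
    have hsum : N (J p₀) = (S.map fun p => (Pi.single (J p) (e p) : Fin s → ℤ) (J p₀)).sum := by
      rw [hN]
      have := map_multiset_sum (Pi.evalAddMonoidHom (fun _ : Fin s => ℤ) (J p₀))
        (S.map fun p => (Pi.single (J p) (e p) : Fin s → ℤ))
      rw [Multiset.map_map] at this
      exact this
    rw [hsum, ← Multiset.sum_map_mul_left]
    refine congrArg Multiset.sum (Multiset.map_congr rfl ?_)
    intro p hp
    by_cases hj : J p = J p₀
    · rw [if_pos hj, ← hj, Pi.single_eq_same, hsame p hp hj]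
      rcases he p₀ hp₀ with h1 | h1 <;> rw [h1] <;> norm_num
    · rw [if_neg hj, Pi.single_eq_of_ne (Ne.symm hj), mul_zero]
  rw [hN0, Pi.zero_apply, mul_zero] at hval
  have hle : (1 : ℤ) ≤ (S.map fun p => if J p = J p₀ then (1 : ℤ) else 0).sum := by
    have h1 : (1 : ℤ) ∈ S.map fun p => if J p = J p₀ then (1 : ℤ) else 0 :=
      Multiset.mem_map.2 ⟨p₀, hp₀, by simp⟩
    refine Multiset.single_le_sum ?_ _ h1
    intro x hx
    obtain ⟨p, -, rfl⟩ := Multiset.mem_map.1 hx
    split_ifs <;> norm_num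
  omega

end Pool.Agent.Helper11.Zt
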